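import Mathlib

/-!
# Quantum random access codes: no simultaneous per-bit decoding with error `2 p (1 - p)`

We construct a `(5, 6, 3/4)`-QRAC such that for every POVM with outcomes in `{0,1}^5` there are a
string `x` and an index `i` for which the decoded bit `y_i` differs from `x_i` with probability
larger than `2 p (1 - p) = 3/8`.

Five disjoint edges of the cube `{0,1}^5`, one in each direction `i`, are used. The two endpoints
of the edge in direction `i` are encoded, with weight `1/2`, by the normalised spectral projections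
of `Γ i`, where `Γ 0, …, Γ 4` are anticommuting self-adjoint unitaries on two qubits, and with
weight `1/2` by the name of the edge.
-/

namespace Pool.Agent.Results.MP_49fc99_mp.NoSimultaneous

open Matrix
open scoped ComplexOrder

/-- A density operator. -/
def IsState {κ : Type*} [Fintype κ] [DecidableEq κ] (ρ : Matrix κ κ ℂ) : Prop :=
  ρ.PosSemidef ∧ ρ.trace = 1

/-- A POVM with outcome set `S`. -/
def IsPOVM {κ : Type*} [Fintype κ] [DecidableEq κ] {S : Type*} [Fintype S]
    (Q : S → Matrix κ κ ℂ) : Prop :=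
  (∀ s, (Q s).PosSemidef) ∧ ∑ s, Q s = 1

/-- The probability of the outcome `s` when the POVM `Q` is applied to `ρ`. -/
noncomputable def prob {κ : Type*} [Fintype κ] {S : Type*} (Q : S → Matrix κ κ ℂ)
    (ρ : Matrix κ κ ℂ) (s : S) : ℝ :=
  (Matrix.trace (Q s * ρ)).re

/-- `ρ` is a quantum random access code for strings of length `n` with success probability `p`;
an `(n, m, p)`-QRAC is the case of matrices indexed by `Fin (2 ^ m)`. -/
def IsQRAC {κ : Type*} [Fintype κ] [DecidableEq κ] (n : ℕ) (p : ℝ)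
    (ρ : (Fin n → Bool) → Matrix κ κ ℂ) : Prop :=
  (∀ x, IsState (ρ x)) ∧ ∀ i : Fin n, ∃ M : Bool → Matrix κ κ ℂ, IsPOVM M ∧
    ∀ x, p ≤ prob M (ρ x) (x i)

/-- The probability that the `i`-th bit of the outcome `y` of `Q`, applied to `ρ`, differs
from `b`. -/
noncomputable def errorProb {κ : Type*} [Fintype κ] {n : ℕ} (Q : (Fin n → Bool) → Matrix κ κ ℂ)
    (ρ : Matrix κ κ ℂ) (i : Fin n) (b : Bool) : ℝ :=
  ∑ y ∈ Finset.univ.filter (fun y : Fin n → Bool => y i ≠ b), prob Q ρ y

/-! ### The five anticommuting matrices -/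

/-- Pauli matrix -/
noncomputable def σx : Matrix (Fin 2) (Fin 2) ℂ := !![0, 1; 1, 0]
/-- Pauli matrix -/
noncomputable def σy : Matrix (Fin 2) (Fin 2) ℂ := !![0, -Complex.I; Complex.I, 0]
/-- Pauli matrix -/
noncomputable def σz : Matrix (Fin 2) (Fin 2) ℂ := !![1, 0; 0, -1]

theorem xx : σx * σx = 1 := by
  ext i j; fin_cases i <;> fin_cases j <;> simp [σx, Matrix.mul_apply]
theorem yy : σy * σy = 1 := by
  ext i j; fin_cases i <;> fin_cases j <;> simp [σy, Matrix.mul_apply]
theorem zz : σz * σz = 1 := by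
  ext i j; fin_cases i <;> fin_cases j <;> simp [σz, Matrix.mul_apply]
theorem xy : σx * σy = -(σy * σx) := by
  ext i j; fin_cases i <;> fin_cases j <;> simp [σx, σy, Matrix.mul_apply]
theorem xz : σx * σz = -(σz * σx) := by
  ext i j; fin_cases i <;> fin_cases j <;> simp [σx, σz, Matrix.mul_apply]
theorem yz : σy * σz = -(σz * σy) := by
  ext i j; fin_cases i <;> fin_cases j <;> simp [σy, σz, Matrix.mul_apply]
theorem hx : σxᴴ = σx := by
  ext i j; fin_cases i <;> fin_cases j <;> simp [σx, Matrix.conjTranspose_apply]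
theorem hy : σyᴴ = σy := by
  ext i j; fin_cases i <;> fin_cases j <;> simp [σy, Matrix.conjTranspose_apply]
theorem hz : σzᴴ = σz := by
  ext i j; fin_cases i <;> fin_cases j <;> simp [σz, Matrix.conjTranspose_apply]
theorem tx : σx.trace = 0 := by simp [σx, Matrix.trace, Fin.sum_univ_two]
theorem ty : σy.trace = 0 := by simp [σy, Matrix.trace, Fin.sum_univ_two]
theorem tz : σz.trace = 0 := by simp [σz, Matrix.trace, Fin.sum_univ_two]

/-- index set of the two qubits -/
abbrev T := Fin 2 × Fin 2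

open scoped Kronecker

/-- The five anticommuting matrices. -/
noncomputable def Γ : Fin 5 → Matrix T T ℂ :=
  ![σx ⊗ₖ 1, σy ⊗ₖ 1, σz ⊗ₖ σx, σz ⊗ₖ σy, σz ⊗ₖ σz]

theorem Γ_sq (i : Fin 5) : Γ i * Γ i = 1 := by
  fin_cases i <;> simp [Γ, ← Matrix.mul_kronecker_mul, xx, yy, zz]

theorem Γ_herm (i : Fin 5) : (Γ i)ᴴ = Γ i := by
  fin_cases i <;> simp [Γ, Matrix.conjTranspose_kronecker, hx, hy, hz]

theorem Γ_tr (i : Fin 5) : (Γ i).trace = 0 := by
  fin_cases i <;> simp [Γ, Matrix.trace_kronecker, tx, ty, tz]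

theorem neg_kron (A B : Matrix (Fin 2) (Fin 2) ℂ) : (-A) ⊗ₖ B = -(A ⊗ₖ B) := by
  ext ⟨a, b⟩ ⟨c, d⟩
  simp [Matrix.kroneckerMap_apply]

theorem kron_neg (A B : Matrix (Fin 2) (Fin 2) ℂ) : A ⊗ₖ (-B) = -(A ⊗ₖ B) := by
  ext ⟨a, b⟩ ⟨c, d⟩
  simp [Matrix.kroneckerMap_apply]

theorem Γ_anti_lt (i j : Fin 5) (h : i < j) : Γ i * Γ j = -(Γ j * Γ i) := by
  fin_cases i <;> fin_cases j <;> first
    | (exfalso; revert h; decide)
    | simp [Γ, ← Matrix.mul_kronecker_mul, xy, xz, yz, zz, neg_kron, kron_neg]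

theorem Γ_anti (i j : Fin 5) (h : i ≠ j) : Γ i * Γ j = -(Γ j * Γ i) := by
  rcases lt_or_gt_of_ne h with h | h
  · exact Γ_anti_lt i j h
  · rw [Γ_anti_lt j i h, neg_neg]

theorem Γ_trace_mul (i j : Fin 5) : (Γ i * Γ j).trace = if i = j then 4 else 0 := by
  split_ifs with h
  · subst h
    rw [Γ_sq]
    simp
  · have h1 : (Γ i * Γ j).trace = -(Γ i * Γ j).trace := by
      conv_lhs => rw [Γ_anti i j h, Matrix.trace_neg, Matrix.trace_mul_comm]
    have : (2:ℂ) * (Γ i * Γ j).trace = 0 := by linear_combination h1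
    simpa using this

/-! ### The code -/

/-- sign of a bit -/
def sg (b : Bool) : ℂ := if b then -1 else 1

theorem sg_sq (b : Bool) : sg b * sg b = 1 := by cases b <;> simp [sg]

/-- lower endpoint of the edge in direction `i` -/
def lo (i : Fin 5) : Fin 5 → Bool := fun j => decide (j = i + 1)

/-- upper endpoint of the edge in direction `i` -/
def hi (i : Fin 5) : Fin 5 → Bool := fun j => decide (j = i + 1 ∨ j = i)

/-- the edge of a vertex -/
def edge (x : Fin 5 → Bool) : Option (Fin 5) :=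
  (List.finRange 5).find? (fun i => decide (x = lo i ∨ x = hi i))

theorem edge_lo : ∀ i, edge (lo i) = some i := by decide
theorem edge_hi : ∀ i, edge (hi i) = some i := by decide
theorem edge_some : ∀ x i, edge x = some i → x = lo i ∨ x = hi i := by decide
theorem edge_none : ∀ x, edge x = none → ∀ i, x ≠ lo i := by decide
theorem lo_inj : ∀ i j, lo i = lo j → i = j := by decide
theorem lo_self : ∀ i, lo i i = false := by decide
theorem hi_self : ∀ i, hi i i = true := by decide
theorem lo_hi : ∀ i j, j ≠ i → lo i j = hi i j := by decide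

/-- the classical labels -/
abbrev C := (Fin 5 → Bool) ⊕ Fin 28

/-- index set of the code: `4 + 32 + 28 = 64` -/
abbrev J := T ⊕ C

/-- A block matrix with an arbitrary quantum part and a diagonal classical part. -/
noncomputable def blk (A : Matrix T T ℂ) (d : C → ℂ) : Matrix J J ℂ :=
  fromBlocks A 0 0 (diagonal d)

theorem blk_mul (A B : Matrix T T ℂ) (d e : C → ℂ) :
    blk A d * blk B e = blk (A * B) (fun c => d c * e c) := by
  simp [blk, fromBlocks_multiply, diagonal_mul_diagonal]

theorem blk_trace (A : Matrix T T ℂ) (d : C → ℂ) : (blk A d).trace = A.trace + ∑ c, d c := by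
  simp [blk, Matrix.trace, Fintype.sum_sum_type]

theorem blk_ct (A : Matrix T T ℂ) (d : C → ℂ) : (blk A d)ᴴ = blk Aᴴ (star d) := by
  simp [blk, fromBlocks_conjTranspose, diagonal_conjTranspose]

theorem blk_add (A B : Matrix T T ℂ) (d e : C → ℂ) :
    blk A d + blk B e = blk (A + B) (fun c => d c + e c) := by
  simp [blk, fromBlocks_add, diagonal_add]

theorem blk_smul (r : ℂ) (A : Matrix T T ℂ) (d : C → ℂ) :
    r • blk A d = blk (r • A) (fun c => r * d c) := by
  simp only [blk, fromBlocks_smul, smul_zero]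
  congr 1
  ext i j
  by_cases h : i = j
  · subst h; simp
  · simp [h]

theorem blk_psd {A B : Matrix T T ℂ} (hA : A = Bᴴ * B) {d : C → ℝ} (hd : ∀ c, 0 ≤ d c) :
    (blk A (fun c => (d c : ℂ))).PosSemidef := by
  have : blk A (fun c => (d c : ℂ))
      = (blk B (fun c => ((Real.sqrt (d c) : ℝ) : ℂ)))ᴴ
        * blk B (fun c => ((Real.sqrt (d c) : ℝ) : ℂ)) := by
    rw [blk_ct, blk_mul, hA]
    congr 1
    ext c
    simp only [Pi.star_apply, Complex.star_def, Complex.conj_ofReal]
    rw [← Complex.ofReal_mul, Real.mul_self_sqrt (hd c)]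
  rw [this]
  exact posSemidef_conjTranspose_mul_self _

/-- classical part of the states -/
noncomputable def cst (x : Fin 5 → Bool) : C → ℝ :=
  match edge x with
  | some i => fun c => if c = Sum.inl (lo i) then 1/2 else 0
  | none => fun c => if c = Sum.inl x then 1 else 0

/-- quantum part of the states -/
noncomputable def qst (x : Fin 5 → Bool) : Matrix T T ℂ :=
  match edge x with
  | some i => (1/8 : ℂ) • (1 + sg (x i) • Γ i)
  | none => 0

/-- the code -/
noncomputable def code (x : Fin 5 → Bool) : Matrix J J ℂ := blk (qst x) (fun c => (cst x c : ℂ))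

theorem cst_nonneg (x : Fin 5 → Bool) (c : C) : 0 ≤ cst x c := by
  unfold cst
  cases edge x with
  | some i => dsimp only; split_ifs <;> norm_num
  | none => dsimp only; split_ifs <;> norm_num

theorem one_add_sq (b : Bool) (i : Fin 5) :
    (1 + sg b • Γ i) * (1 + sg b • Γ i) = (2:ℂ) • (1 + sg b • Γ i) := by
  rw [mul_add, add_mul, add_mul, one_mul, mul_one, one_mul, smul_mul_smul_comm, Γ_sq, sg_sq,
    one_smul]
  rw [two_smul]
  abel

theorem one_add_herm (b : Bool) (i : Fin 5) : (1 + sg b • Γ i)ᴴ = 1 + sg b • Γ i := by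
  rw [conjTranspose_add, conjTranspose_one, conjTranspose_smul, Γ_herm]
  congr 2
  cases b <;> simp [sg]

theorem qst_sq (x : Fin 5 → Bool) : ∃ B : Matrix T T ℂ, qst x = Bᴴ * B := by
  unfold qst
  split
  · rename_i i _
    refine ⟨(1/4 : ℂ) • (1 + sg (x i) • Γ i), ?_⟩
    rw [conjTranspose_smul, one_add_herm, smul_mul_smul_comm, one_add_sq, smul_smul]
    congr 1
    norm_num
  · exact ⟨0, by simp⟩

theorem code_psd (x : Fin 5 → Bool) : (code x).PosSemidef := by
  obtain ⟨B, hB⟩ := qst_sq x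
  exact blk_psd hB (cst_nonneg x)

/-- classical part of the observables -/
noncomputable def cob (i : Fin 5) : C → ℂ
  | Sum.inl ℓ => if ℓ = lo i then 0 else sg (ℓ i)
  | Sum.inr _ => 0

/-- the observables -/
noncomputable def obs (i : Fin 5) : Matrix J J ℂ := blk (Γ i) (cob i)

theorem code_trace (x : Fin 5 → Bool) : (code x).trace = 1 := by
  rw [code, blk_trace]
  unfold qst cst
  split
  · rename_i i hi
    simp [Γ_tr, Finset.sum_ite_eq', hi, apply_ite]
    norm_num
  · rename_i hi
    simp [hi, apply_ite]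

theorem obs_trace (i : Fin 5) (x : Fin 5 → Bool) :
    ∃ r : ℝ, 1/2 ≤ r ∧ sg (x i) * (obs i * code x).trace = r := by
  rw [obs, code, blk_mul, blk_trace]
  unfold qst cst
  split
  · rename_i k hk
    have e1 : (Γ i * ((1/8 : ℂ) • (1 + sg (x k) • Γ k))).trace
        = (1/8) * (sg (x k) * if i = k then 4 else 0) := by
      rw [mul_smul_comm, mul_add, mul_one, mul_smul_comm, trace_smul, trace_add, Γ_tr,
        trace_smul, Γ_trace_mul]
      simp
    rw [e1]
    have e2 : ∑ c : C, cob i c * (((if c = Sum.inl (lo k) then (1/2 : ℝ) else 0) : ℝ) : ℂ)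
        = cob i (Sum.inl (lo k)) * (1/2) := by
      rw [Finset.sum_eq_single (Sum.inl (lo k))]
      · simp
      · intro c _ hc
        simp [hc]
      · intro h
        exact absurd (Finset.mem_univ _) h
    simp only [hk]
    rw [e2]
    by_cases hik : i = k
    · subst hik
      refine ⟨1/2, le_rfl, ?_⟩
      simp only [cob, if_true]
      have := sg_sq (x i)
      push_cast
      linear_combination (1/2 : ℂ) * this
    · refine ⟨1/2, le_rfl, ?_⟩
      have h1 : lo k ≠ lo i := fun h => hik (lo_inj k i h).symm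
      have h2 : lo k i = x i := by
        rcases edge_some x k hk with h | h
        · rw [h]
        · rw [h, lo_hi k i hik]
      simp only [cob, if_neg h1, if_neg hik, h2]
      have := sg_sq (x i)
      push_cast
      linear_combination (1/2 : ℂ) * this
  · rename_i hk
    refine ⟨1, by norm_num, ?_⟩
    have e2 : ∑ c : C, cob i c * (((if c = Sum.inl x then (1 : ℝ) else 0) : ℝ) : ℂ)
        = cob i (Sum.inl x) := by
      rw [Finset.sum_eq_single (Sum.inl x)]
      · simp
      · intro c _ hc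
        simp [hc]
      · intro h
        exact absurd (Finset.mem_univ _) h
    simp only [hk]
    rw [e2]
    simp only [cob, if_neg (edge_none x hk i), mul_zero, trace_zero, zero_add]
    rw [sg_sq]
    simp

/-! ### The decoding of single bits -/

/-- sign of a bit, real version -/
def sgR (b : Bool) : ℝ := if b then -1 else 1

theorem sg_eq (b : Bool) : sg b = (sgR b : ℂ) := by cases b <;> simp [sg, sgR]

/-- real version of `cob` -/
noncomputable def cobR (i : Fin 5) : C → ℝ
  | Sum.inl ℓ => if ℓ = lo i then 0 else sgR (ℓ i)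
  | Sum.inr _ => 0

theorem cob_eq (i : Fin 5) (c : C) : cob i c = (cobR i c : ℂ) := by
  cases c with
  | inl ℓ =>
    simp only [cob, cobR]
    split_ifs
    · simp
    · exact sg_eq _
  | inr _ => simp [cob, cobR]

theorem cobR_abs (i : Fin 5) (b : Bool) (c : C) : 0 ≤ (1 + sgR b * cobR i c) / 2 := by
  cases c with
  | inl ℓ =>
    simp only [cobR]
    split_ifs
    · norm_num
    · cases b <;> cases ℓ i <;> norm_num [sgR]
  | inr _ => norm_num [cobR]

/-- the POVM for the `i`-th bit -/
noncomputable def povm (i : Fin 5) (b : Bool) : Matrix J J ℂ :=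
  blk ((1/2 : ℂ) • (1 + sg b • Γ i)) (fun c => (((1 + sgR b * cobR i c) / 2 : ℝ) : ℂ))

theorem blk_one : blk 1 (fun _ => 1) = (1 : Matrix J J ℂ) := by
  unfold blk
  have : (diagonal (fun _ : C => (1:ℂ))) = 1 := diagonal_one
  rw [this, fromBlocks_one]

theorem povm_eq (i : Fin 5) (b : Bool) :
    povm i b = (1/2 : ℂ) • ((1 : Matrix J J ℂ) + sg b • obs i) := by
  rw [povm, obs, blk_smul, ← blk_one, blk_add, blk_smul]
  congr 1
  ext c
  rw [cob_eq, sg_eq]
  push_cast
  ring

theorem povm_psd (i : Fin 5) (b : Bool) : (povm i b).PosSemidef := by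
  apply blk_psd (B := (1/2 : ℂ) • (1 + sg b • Γ i)) _ (cobR_abs i b)
  rw [conjTranspose_smul, one_add_herm, smul_mul_smul_comm, one_add_sq, smul_smul]
  congr 1
  norm_num

theorem povm_isPOVM (i : Fin 5) : IsPOVM (povm i) := by
  refine ⟨povm_psd i, ?_⟩
  rw [Fintype.sum_bool, povm_eq, povm_eq, ← smul_add]
  have : (1 : Matrix J J ℂ) + sg true • obs i + (1 + sg false • obs i) = (2:ℂ) • 1 := by
    simp only [sg, if_true, Bool.false_eq_true, if_false, neg_smul, one_smul, two_smul]
    abel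
  rw [this, smul_smul]
  norm_num

theorem povm_prob (i : Fin 5) (x : Fin 5 → Bool) : 3/4 ≤ prob (povm i) (code x) (x i) := by
  obtain ⟨r, hr, hr2⟩ := obs_trace i x
  unfold prob
  rw [povm_eq, smul_mul_assoc, add_mul, one_mul, smul_mul_assoc, trace_smul, trace_add,
    trace_smul, code_trace, smul_eq_mul, smul_eq_mul, hr2]
  have : (1/2 : ℂ) * (1 + (r:ℂ)) = (((1 + r) / 2 : ℝ) : ℂ) := by push_cast; ring
  rw [this, Complex.ofReal_re]
  linarith

/-! ### Joint decoding -/

/-- signed sum of the observables -/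
noncomputable def G (y : Fin 5 → Bool) : Matrix T T ℂ := ∑ i, sg (y i) • Γ i

theorem G_herm (y : Fin 5 → Bool) : (G y)ᴴ = G y := by
  unfold G
  rw [conjTranspose_sum]
  refine Finset.sum_congr rfl (fun i _ => ?_)
  rw [conjTranspose_smul, Γ_herm]
  congr 1
  cases y i <;> simp [sg]

theorem Γ_symm (i j : Fin 5) : Γ i * Γ j + Γ j * Γ i = if i = j then (2:ℂ) • 1 else 0 := by
  split_ifs with h
  · subst h
    rw [Γ_sq, two_smul]
  · rw [Γ_anti i j h]
    simp

theorem G_sq (y : Fin 5 → Bool) : G y * G y = (5:ℂ) • 1 := by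
  have h1 : G y * G y = ∑ i, ∑ j, (sg (y i) * sg (y j)) • (Γ i * Γ j) := by
    unfold G
    rw [Finset.sum_mul_sum]
    refine Finset.sum_congr rfl (fun i _ => Finset.sum_congr rfl (fun j _ => ?_))
    rw [smul_mul_smul_comm]
  have h2 : G y * G y = ∑ i, ∑ j, (sg (y i) * sg (y j)) • (Γ j * Γ i) := by
    rw [h1, Finset.sum_comm]
    refine Finset.sum_congr rfl (fun i _ => Finset.sum_congr rfl (fun j _ => ?_))
    rw [mul_comm]
  have h3 : (2:ℂ) • (G y * G y) = (10:ℂ) • 1 := by
    rw [two_smul]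
    nth_rw 1 [h1]
    rw [h2, ← Finset.sum_add_distrib]
    have : ∀ i, (∑ j, (sg (y i) * sg (y j)) • (Γ i * Γ j)
        + ∑ j, (sg (y i) * sg (y j)) • (Γ j * Γ i)) = (2:ℂ) • (1 : Matrix T T ℂ) := by
      intro i
      rw [← Finset.sum_add_distrib]
      simp_rw [← smul_add, Γ_symm]
      rw [Finset.sum_eq_single i]
      · rw [if_pos rfl, sg_sq, one_smul]
      · intro j _ hj
        rw [if_neg (Ne.symm hj), smul_zero]
      · intro h
        exact absurd (Finset.mem_univ _) h
    rw [Finset.sum_congr rfl (fun i _ => this i), Finset.sum_const, Finset.card_univ,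
      Fintype.card_fin, ← Nat.cast_smul_eq_nsmul ℂ, smul_smul]
    norm_num
  have h4 : G y * G y = (1/2 : ℂ) • ((2:ℂ) • (G y * G y)) := by
    rw [smul_smul]; norm_num
  rw [h4, h3, smul_smul]
  norm_num

/-- `√5 - G` -/
noncomputable def W (y : Fin 5 → Bool) : Matrix T T ℂ := ((Real.sqrt 5 : ℝ) : ℂ) • 1 - G y

theorem W_sq (y : Fin 5 → Bool) : W y * W y = (2 * ((Real.sqrt 5 : ℝ) : ℂ)) • W y := by
  have h5 : ((Real.sqrt 5 : ℝ) : ℂ) * ((Real.sqrt 5 : ℝ) : ℂ) = 5 := by
    rw [← Complex.ofReal_mul, Real.mul_self_sqrt (by norm_num)]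
    norm_num
  have h : W y * W y = (((Real.sqrt 5 : ℝ) : ℂ) * ((Real.sqrt 5 : ℝ) : ℂ)) • (1 : Matrix T T ℂ)
      - (2 * ((Real.sqrt 5 : ℝ) : ℂ)) • G y + G y * G y := by
    unfold W
    rw [sub_mul, mul_sub, mul_sub, smul_mul_smul_comm, one_mul, smul_one_mul, mul_smul_one,
      two_mul, add_smul]
    abel
  rw [h, G_sq, h5, W, smul_sub, smul_smul]
  have : (2 * ((Real.sqrt 5 : ℝ) : ℂ)) * ((Real.sqrt 5 : ℝ) : ℂ) = 5 + 5 := by
    rw [mul_assoc, h5]; norm_num
  rw [this, add_smul]
  abel

theorem W_herm (y : Fin 5 → Bool) : (W y)ᴴ = W y := by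
  unfold W
  rw [conjTranspose_sub, conjTranspose_smul, conjTranspose_one, G_herm]
  congr 2
  simp

/-- the quantum block -/
noncomputable def qb (A : Matrix T T ℂ) : Matrix J J ℂ := blk A (fun _ => 0)

theorem W_trace_nonneg {Q : Matrix J J ℂ} (hQ : Q.PosSemidef) (y : Fin 5 → Bool) :
    0 ≤ (trace (Q * qb (W y))).re := by
  have hs : (0:ℝ) < Real.sqrt 5 := Real.sqrt_pos.2 (by norm_num)
  have h1 : qb (W y) = (((2 * Real.sqrt 5)⁻¹ : ℝ) : ℂ) • ((qb (W y))ᴴ * qb (W y)) := by
    unfold qb
    rw [blk_ct, blk_mul, W_herm, W_sq, blk_smul, smul_smul]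
    have : (((2 * Real.sqrt 5)⁻¹ : ℝ) : ℂ) * (2 * ((Real.sqrt 5 : ℝ) : ℂ)) = 1 := by
      have h2 : (2 * Real.sqrt 5)⁻¹ * (2 * Real.sqrt 5) = 1 := inv_mul_cancel₀ (by positivity)
      exact_mod_cast congrArg (fun r : ℝ => (r : ℂ)) h2
    rw [this, one_smul]
    congr 1
    ext c
    simp
  rw [h1, mul_smul_comm, trace_smul, smul_eq_mul, Complex.re_ofReal_mul]
  apply mul_nonneg (by positivity)
  rw [← mul_assoc, trace_mul_comm, ← mul_assoc]
  have h2 := (hQ.mul_mul_conjTranspose_same (qb (W y))).trace_nonneg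
  exact (Complex.nonneg_iff.1 h2).1

theorem qb_sub (A B : Matrix T T ℂ) : qb (A - B) = qb A - qb B := by
  unfold qb blk
  ext i j
  rcases i with i | i <;> rcases j with j | j <;> simp

theorem qb_smul (r : ℂ) (A : Matrix T T ℂ) : qb (r • A) = r • qb A := by
  unfold qb
  rw [blk_smul]
  simp

theorem qb_sum (f : Fin 5 → Matrix T T ℂ) : qb (∑ i, f i) = ∑ i, qb (f i) := by
  unfold qb blk
  ext i j
  rw [Matrix.sum_apply]
  rcases i with i | i <;> rcases j with j | j <;> simp [Matrix.sum_apply, diagonal]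

/-- The difference of the two states of an edge. -/
theorem code_sub (i : Fin 5) : code (lo i) - code (hi i) = (1/4 : ℂ) • qb (Γ i) := by
  have h1 : code (lo i) = blk ((1/8 : ℂ) • (1 + Γ i))
      (fun c => (((if c = Sum.inl (lo i) then 1/2 else 0 : ℝ)) : ℂ)) := by
    simp [code, qst, cst, edge_lo, lo_self, sg]
  have h2 : code (hi i) = blk ((1/8 : ℂ) • (1 - Γ i))
      (fun c => (((if c = Sum.inl (lo i) then 1/2 else 0 : ℝ)) : ℂ)) := by
    simp [code, qst, cst, edge_hi, hi_self, sg, sub_eq_add_neg]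
  rw [h1, h2]
  unfold qb blk
  ext a b
  rcases a with a | a <;> rcases b with b | b <;> simp
  ring

theorem prob_sum {κ : Type*} [Fintype κ] [DecidableEq κ] {S : Type*} [Fintype S]
    {Q : S → Matrix κ κ ℂ} (hQ : IsPOVM Q) {ρ : Matrix κ κ ℂ} (hρ : ρ.trace = 1) :
    ∑ s, prob Q ρ s = 1 := by
  unfold prob
  rw [← Complex.re_sum, ← Matrix.trace_sum, ← Finset.sum_mul, hQ.2, one_mul, hρ]
  rfl

/-- signed sum of the probabilities -/
theorem signed_sum {Q : (Fin 5 → Bool) → Matrix J J ℂ} (hQ : IsPOVM Q) {ρ : Matrix J J ℂ}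
    (hρ : ρ.trace = 1) (i : Fin 5) (b : Bool) :
    sgR b * ∑ y, sgR (y i) * prob Q ρ y = 1 - 2 * errorProb Q ρ i b := by
  have h := prob_sum hQ hρ
  unfold errorProb
  rw [Finset.sum_filter, ← h, Finset.mul_sum, Finset.mul_sum, ← Finset.sum_sub_distrib]
  refine Finset.sum_congr rfl (fun y _ => ?_)
  cases b <;> cases hy : y i <;> simp [sgR] <;> ring

/-- **No good joint decoding.** -/
theorem core {Q : (Fin 5 → Bool) → Matrix J J ℂ} (hQ : IsPOVM Q) :
    ∃ x i, 3/8 < errorProb Q (code x) i (x i) := by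
  by_contra hcon
  push Not at hcon
  -- signed sums for the operators `qb (Γ i)`
  have h1 : ∀ i, 2 ≤ ∑ y, sgR (y i) * (trace (Q y * qb (Γ i))).re := by
    intro i
    have a1 := signed_sum hQ (code_trace (lo i)) i false
    have a2 := signed_sum hQ (code_trace (hi i)) i true
    have b1 := hcon (lo i) i
    have b2 := hcon (hi i) i
    rw [lo_self] at b1
    rw [hi_self] at b2
    have hf : sgR false = 1 := by simp [sgR]
    have ht : sgR true = -1 := by simp [sgR]
    rw [hf] at a1
    rw [ht] at a2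
    have e : ∀ y, (trace (Q y * qb (Γ i))).re
        = 4 * (prob Q (code (lo i)) y - prob Q (code (hi i)) y) := by
      intro y
      unfold prob
      rw [← Complex.sub_re, ← trace_sub, ← mul_sub, code_sub, mul_smul_comm, trace_smul,
        smul_eq_mul]
      have : (1/4 : ℂ) = ((1/4 : ℝ) : ℂ) := by push_cast; ring
      rw [this, Complex.re_ofReal_mul]
      ring
    have e2 : ∑ y, sgR (y i) * (trace (Q y * qb (Γ i))).re
        = 4 * (∑ y, sgR (y i) * prob Q (code (lo i)) y
          - ∑ y, sgR (y i) * prob Q (code (hi i)) y) := by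
      rw [← Finset.sum_sub_distrib, Finset.mul_sum]
      refine Finset.sum_congr rfl (fun y _ => ?_)
      rw [e]
      ring
    rw [e2]
    linarith
  -- the upper bound
  have h2 : ∑ i, ∑ y, sgR (y i) * (trace (Q y * qb (Γ i))).re ≤ 4 * Real.sqrt 5 := by
    rw [Finset.sum_comm]
    have h3 : ∀ y, ∑ i, sgR (y i) * (trace (Q y * qb (Γ i))).re
        ≤ Real.sqrt 5 * (trace (Q y * qb 1)).re := by
      intro y
      have h4 := W_trace_nonneg (hQ.1 y) y
      rw [W, qb_sub, qb_smul, G, qb_sum, mul_sub, trace_sub, Complex.sub_re, mul_smul_comm,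
        trace_smul, smul_eq_mul, Complex.re_ofReal_mul, Finset.mul_sum, trace_sum,
        Complex.re_sum] at h4
      have h5 : ∀ i, (trace (Q y * qb (sg (y i) • Γ i))).re
          = sgR (y i) * (trace (Q y * qb (Γ i))).re := by
        intro i
        rw [qb_smul, mul_smul_comm, trace_smul, smul_eq_mul, sg_eq, Complex.re_ofReal_mul]
      simp_rw [h5] at h4
      linarith
    refine (Finset.sum_le_sum (fun y _ => h3 y)).trans ?_
    rw [← Finset.mul_sum, ← Complex.re_sum, ← trace_sum, ← Finset.sum_mul, hQ.2, one_mul]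
    have h6 : (trace (qb 1)).re = 4 := by
      unfold qb
      rw [blk_trace]
      simp
    rw [h6, mul_comm]
  have h7 : (10:ℝ) ≤ ∑ i, ∑ y, sgR (y i) * (trace (Q y * qb (Γ i))).re := by
    calc (10:ℝ) = ∑ _i : Fin 5, (2:ℝ) := by simp; norm_num
      _ ≤ _ := Finset.sum_le_sum (fun i _ => h1 i)
  have h8 : Real.sqrt 5 < 5/2 := by
    rw [Real.sqrt_lt' (by norm_num)]
    norm_num
  linarith

/-! ### Transport to `Fin (2 ^ 6)` -/

/-- the indices -/
noncomputable def eqv : J ≃ Fin (2 ^ 6) :=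
  Fintype.equivFinOfCardEq (by
    simp [J, C, T, Fintype.card_sum, Fintype.card_prod])

/-- the code on six qubits -/
noncomputable def code6 (x : Fin 5 → Bool) : Matrix (Fin (2 ^ 6)) (Fin (2 ^ 6)) ℂ :=
  (code x).submatrix eqv.symm eqv.symm

theorem trace_sub_equiv {κ ι : Type*} [Fintype κ] [Fintype ι] (e : κ ≃ ι)
    (A : Matrix κ κ ℂ) : (A.submatrix e.symm e.symm).trace = A.trace := by
  unfold Matrix.trace
  exact e.symm.sum_comp (fun i => A i i)

theorem code6_qrac : IsQRAC 5 (3/4) code6 := by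
  refine ⟨fun x => ⟨(code_psd x).submatrix _, ?_⟩, fun i => ?_⟩
  · rw [code6, trace_sub_equiv, code_trace]
  · refine ⟨fun b => (povm i b).submatrix eqv.symm eqv.symm,
      ⟨fun b => (povm_psd i b).submatrix _, ?_⟩, fun x => ?_⟩
    · have := (povm_isPOVM i).2
      rw [Fintype.sum_bool] at this ⊢
      have h : (povm i true).submatrix eqv.symm eqv.symm
          + (povm i false).submatrix eqv.symm eqv.symm
          = (povm i true + povm i false).submatrix eqv.symm eqv.symm := rfl
      rw [h, this]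
      exact Matrix.submatrix_one_equiv _
    · have := povm_prob i x
      unfold prob at this ⊢
      rw [code6, Matrix.submatrix_mul_equiv, trace_sub_equiv]
      exact this

/-- **The negated form of Q1.** There is a `(5, 6, 3/4)`-QRAC such that every POVM with outcomes
in `{0,1}^5` has, for some `x` and some `i`, probability larger than `2 p (1 - p)` of decoding the
`i`-th bit of `x` wrongly. -/
theorem result : ∃ ρ : (Fin 5 → Bool) → Matrix (Fin (2 ^ 6)) (Fin (2 ^ 6)) ℂ,
    IsQRAC 5 (3/4) ρ ∧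
    ∀ Q : (Fin 5 → Bool) → Matrix (Fin (2 ^ 6)) (Fin (2 ^ 6)) ℂ, IsPOVM Q →
      ∃ (x : Fin 5 → Bool) (i : Fin 5),
        2 * (3/4 : ℝ) * (1 - 3/4) < errorProb Q (ρ x) i (x i) := by
  refine ⟨code6, code6_qrac, fun Q hQ => ?_⟩
  have hQ' : IsPOVM (fun y => (Q y).submatrix eqv eqv) := by
    refine ⟨fun y => (hQ.1 y).submatrix _, ?_⟩
    have h : ∑ y, (Q y).submatrix eqv eqv = (∑ y, Q y).submatrix eqv eqv := by
      ext i j
      simp [Matrix.sum_apply]
    rw [h, hQ.2]
    exact Matrix.submatrix_one_equiv _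
  obtain ⟨x, i, hxi⟩ := core hQ'
  refine ⟨x, i, ?_⟩
  have e : ∀ y, prob Q (code6 x) y = prob (fun y => (Q y).submatrix eqv eqv) (code x) y := by
    intro y
    unfold prob
    have h1 : Q y = ((Q y).submatrix eqv eqv).submatrix eqv.symm eqv.symm := by
      simp
    rw [h1, code6, Matrix.submatrix_mul_equiv, trace_sub_equiv]
  unfold errorProb at hxi ⊢
  simp_rw [e]
  refine lt_of_eq_of_lt ?_ hxi
  norm_num

end Pool.Agent.Results.MP_49fc99_mp.NoSimultaneous
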